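import Pool.Agent.Work.MP_8d5be4_exp.Final
import Pool.Agent.Work.MP_8d5be4_exp.Words

/-!
# MP_8d5be4_al: conjugators in `Aut(F_n)`, `n ≥ 6`, are at least exponentially long

For every `n ≥ 6` and `k ≥ 1` there are conjugate automorphisms `a`, `b` of `F_n` of norm at most
`14 k` all of whose conjugators, even all of whose conjugators modulo inner automorphisms, have
norm at least `(4k+1)^k`. Moreover `a` and `b` are products of at most `14 k + n + 4` elementary
Nielsen automorphisms, and no conjugator is a product of fewer than `k log_2 (4k+1)` of them.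
-/

set_option autoImplicit false

namespace Pool.Agent.Results.MP_8d5be4_al.LongConjugators

/-- `‖a‖`: the maximal length of the reduced words of the images of the basis elements. -/
def nrm {n : ℕ} (a : MulAut (FreeGroup (Fin n))) : ℕ :=
  Finset.univ.sup fun i : Fin n => (FreeGroup.toWord (a (FreeGroup.of i))).length

/-- An elementary Nielsen automorphism of `F_n`: all basis elements but one are fixed, and this
one is inverted or multiplied, on the left or on the right, by another basis element or its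
inverse. -/
def Elementary {n : ℕ} (s : MulAut (FreeGroup (Fin n))) : Prop :=
  ∃ i : Fin n, (∀ l : Fin n, l ≠ i → s (FreeGroup.of l) = FreeGroup.of l) ∧
    (s (FreeGroup.of i) = (FreeGroup.of i)⁻¹ ∨
      ∃ j : Fin n, j ≠ i ∧ ∃ e : FreeGroup (Fin n), (e = FreeGroup.of j ∨ e = (FreeGroup.of j)⁻¹) ∧
        (s (FreeGroup.of i) = FreeGroup.of i * e ∨ s (FreeGroup.of i) = e * FreeGroup.of i))

/-- `a` is a product of at most `r` elementary Nielsen automorphisms. -/
def WordLe {n : ℕ} (r : ℕ) (a : MulAut (FreeGroup (Fin n))) : Prop :=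
  ∃ l : List (MulAut (FreeGroup (Fin n))), l.length ≤ r ∧ (∀ s ∈ l, Elementary s) ∧ l.prod = a

/-- Conjugate automorphisms of norm at most `14 k` (and word length at most `14 k + n + 4`) all
of whose conjugators, even modulo inner automorphisms, have norm at least `(4k+1)^k`. -/
theorem result (n : ℕ) (hn : 6 ≤ n) (k : ℕ) (hk : 1 ≤ k) :
    ∃ a b : MulAut (FreeGroup (Fin n)),
      (∃ d : MulAut (FreeGroup (Fin n)), d⁻¹ * a * d = b) ∧
      nrm a ≤ 14 * k ∧ nrm b ≤ 14 * k ∧
      WordLe (14 * k + n + 4) a ∧ WordLe (14 * k + n + 4) b ∧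
      ∀ (c : MulAut (FreeGroup (Fin n))) (g : FreeGroup (Fin n)),
        c⁻¹ * a * c = MulAut.conj g * b →
          (4 * k + 1) ^ k ≤ nrm c ∧ ∀ r : ℕ, WordLe r c → (4 * k + 1) ^ k ≤ 2 ^ r := by
  refine ⟨Pool.ExpConj.al hn (4 * k) 0, Pool.ExpConj.al hn (4 * k) (2 * k),
    ⟨Pool.ExpConj.theta hn (4 * k) ^ (2 * k), Pool.ExpConj.al_conj hn (4 * k) (2 * k)⟩,
    ?_, ?_, ?_, ?_, ?_⟩
  · have := Pool.ExpConj.nrm_al hn (4 * k) 0 (by omega)
    change Pool.ExpConj.nrm _ ≤ _
    omega
  · have := Pool.ExpConj.nrm_al hn (4 * k) (2 * k) (by omega)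
    change Pool.ExpConj.nrm _ ≤ _
    omega
  · exact (Pool.ExpConj.al_isProd hn (4 * k) 0).mono (by omega)
  · exact (Pool.ExpConj.al_isProd hn (4 * k) (2 * k)).mono (by omega)
  · intro c g hc
    obtain ⟨i, hi⟩ := Pool.ExpConj.main hn k hk c g hc
    constructor
    · exact le_trans hi (Finset.le_sup
        (f := fun i : Fin n => (FreeGroup.toWord (c (FreeGroup.of i))).length)
        (Finset.mem_univ i))
    · intro r hr
      have h1 : (c (FreeGroup.of i)).norm ≤ 2 ^ r * (FreeGroup.of i).norm :=
        Pool.ExpConj.IsProd.norm_le (r := r) (a := c) hr (FreeGroup.of i)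
      rw [FreeGroup.norm_of, mul_one] at h1
      exact le_trans hi h1

end Pool.Agent.Results.MP_8d5be4_al.LongConjugators
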