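import Pool.Agent.Work.MP_8d5be4_oa.Glue

/-!
# MP_8d5be4_al: the question for Out(F_n) follows from the one for Aut(F_N), `N ≥ 2 n + 4`; hence the
questions for Aut and for Out are equivalent
-/

set_option autoImplicit false

namespace Pool.Agent.Results.MP_8d5be4_al.OutEquivalence

/-- `‖a‖`: the maximal length of the reduced words of the images of the basis elements. -/
def nrm {n : ℕ} (a : MulAut (FreeGroup (Fin n))) : ℕ :=
  Finset.univ.sup fun i : Fin n => (FreeGroup.toWord (a (FreeGroup.of i))).length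

/-- The bound of Q1: conjugate automorphisms `a`, `b` of `F_n` have a conjugator of norm at most
`f (‖a‖, ‖b‖)`. -/
def AutBound (n : ℕ) (f : ℕ × ℕ → ℕ) : Prop :=
  ∀ a b : MulAut (FreeGroup (Fin n)), (∃ d : MulAut (FreeGroup (Fin n)), d⁻¹ * a * d = b) →
    ∃ c : MulAut (FreeGroup (Fin n)), c⁻¹ * a * c = b ∧ nrm c ≤ f (nrm a, nrm b)

/-- The same bound modulo inner automorphisms: if the classes of `a`, `b` in `Out(F_n)` are
conjugate, then some automorphism `c` of norm at most `f (‖a‖, ‖b‖)` conjugates them. -/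
def OutBound (n : ℕ) (f : ℕ × ℕ → ℕ) : Prop :=
  ∀ a b : MulAut (FreeGroup (Fin n)),
    (∃ (d : MulAut (FreeGroup (Fin n))) (g : FreeGroup (Fin n)),
      d⁻¹ * a * d = MulAut.conj g * b) →
    ∃ (c : MulAut (FreeGroup (Fin n))) (g : FreeGroup (Fin n)),
      c⁻¹ * a * c = MulAut.conj g * b ∧ nrm c ≤ f (nrm a, nrm b)

/-- `H = (m + 1)^(n + 1) + 8`, `m` the larger of the two numbers. -/
def H (n : ℕ) (p : ℕ × ℕ) : ℕ := (max p.1 p.2 + 1) ^ (n + 1) + 8

/-- (1) A bound `f` for conjugators in `Aut(F_N)`, `N ≥ 2 n + 4`, gives the bound `f (H, H)` for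
conjugators in `Out(F_n)`, recursive if `f` is.  (2) So the following are equivalent: recursive
bounds exist for `Aut(F_n)`, all `n ≥ 3` (Q1); for `Out(F_n)`, all `n ≥ 3`; for `Aut(F_n)`, for
arbitrarily large `n`; for `Out(F_n)`, for arbitrarily large `n`. -/
theorem result :
    (∀ n N : ℕ, 2 ≤ n → 2 * n + 4 ≤ N → ∀ f : ℕ × ℕ → ℕ, AutBound N f →
      OutBound n (fun p => f (H n p, H n p)) ∧
        (Computable f → Computable (fun p : ℕ × ℕ => f (H n p, H n p)))) ∧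
    List.TFAE [
      ∀ n ≥ 3, ∃ f, Computable f ∧ AutBound n f,
      ∀ n ≥ 3, ∃ f, Computable f ∧ OutBound n f,
      ∀ m, ∃ n ≥ m, ∃ f, Computable f ∧ AutBound n f,
      ∀ m, ∃ n ≥ m, ∃ f, Computable f ∧ OutBound n f] := by
  have key : ∀ n N : ℕ, 2 ≤ n → 2 * n + 4 ≤ N → ∀ f : ℕ × ℕ → ℕ, AutBound N f →
      OutBound n (fun p => f (H n p, H n p)) ∧
        (Computable f → Computable (fun p : ℕ × ℕ => f (H n p, H n p))) :=
    fun n N hn hN f hf => ⟨Pool.OA.out_of_aut hn hN hf, Pool.OA.comp_fHH n⟩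
  refine ⟨key, ?_⟩
  tfae_have 1 → 3 := fun h m => ⟨max m 3, le_max_left _ _, h _ (le_max_right _ _)⟩
  tfae_have 3 → 2 := by
    intro h n hn
    obtain ⟨N, hN, f, hf, hF⟩ := h (2 * n + 4)
    obtain ⟨h1, h2⟩ := key n N (by omega) hN f hF
    exact ⟨_, h2 hf, h1⟩
  tfae_have 2 → 4 := fun h m => ⟨max m 3, le_max_left _ _, h _ (le_max_right _ _)⟩
  tfae_have 4 → 1 := by
    intro h n hn
    obtain ⟨N, hN, f, hf, hF⟩ := h (n + 4)
    obtain ⟨M, rfl⟩ : ∃ M, N = M + 2 := ⟨N - 2, by omega⟩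
    exact ⟨_, Pool.AutRed.comp_max (Pool.AutRed.comp_two hf),
      Pool.AutRed.aut_down (by omega) (Pool.AutRed.out_down hF)⟩
  tfae_finish

end Pool.Agent.Results.MP_8d5be4_al.OutEquivalence
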