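import Pool.Agent.Work.MP_8d5be4_out.Glue

/-!
# MP_8d5be4_al: the question for Aut(F_n) follows from the one for Out(F_(n+2))
-/

set_option autoImplicit false

namespace Pool.Agent.Results.MP_8d5be4_al.OutReduction

/-- `‖a‖`: the maximal length of the reduced words of the images of the basis elements. -/
def nrm {n : ℕ} (a : MulAut (FreeGroup (Fin n))) : ℕ :=
  Finset.univ.sup fun i : Fin n => (FreeGroup.toWord (a (FreeGroup.of i))).length

/-- The bound of Q1: conjugate automorphisms `a`, `b` of `F_n` have a conjugator of norm at most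
`f (‖a‖, ‖b‖)`. -/
def AutBound (n : ℕ) (f : ℕ × ℕ → ℕ) : Prop :=
  ∀ a b : MulAut (FreeGroup (Fin n)), (∃ d : MulAut (FreeGroup (Fin n)), d⁻¹ * a * d = b) →
    ∃ c : MulAut (FreeGroup (Fin n)), c⁻¹ * a * c = b ∧ nrm c ≤ f (nrm a, nrm b)

/-- The same bound modulo inner automorphisms: if the classes of `a`, `b` in `Out(F_n)` are
conjugate, then some automorphism `c` of norm at most `f (‖a‖, ‖b‖)` conjugates them. -/
def OutBound (n : ℕ) (f : ℕ × ℕ → ℕ) : Prop :=
  ∀ a b : MulAut (FreeGroup (Fin n)),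
    (∃ (d : MulAut (FreeGroup (Fin n))) (g : FreeGroup (Fin n)),
      d⁻¹ * a * d = MulAut.conj g * b) →
    ∃ (c : MulAut (FreeGroup (Fin n))) (g : FreeGroup (Fin n)),
      c⁻¹ * a * c = MulAut.conj g * b ∧ nrm c ≤ f (nrm a, nrm b)

/-- Bounded conjugators in `Out(F_(n+2))` give bounded conjugators in `Aut(F_n)`, explicitly and
computably. -/
theorem result (n : ℕ) (f : ℕ × ℕ → ℕ) (hf : OutBound (n + 2) f) :
    AutBound n (fun p => 2 * f (max p.1 p.2 + 5, max p.1 p.2 + 5)) ∧
      (Computable f → Computable (fun p : ℕ × ℕ => 2 * f (max p.1 p.2 + 5, max p.1 p.2 + 5))) :=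
  ⟨Pool.AutRed.out_down hf, Pool.AutRed.comp_two⟩

end Pool.Agent.Results.MP_8d5be4_al.OutReduction
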