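import Pool.Agent.Work.MP_8d5be4_out.Glue

/-!
# MP_8d5be4_al: Q1 in one rank gives Q1 in all smaller ranks (with a gap of two)
-/

set_option autoImplicit false

namespace Pool.Agent.Results.MP_8d5be4_al.RankReduction

/-- `‖a‖`: the maximal length of the reduced words of the images of the basis elements. -/
def nrm {n : ℕ} (a : MulAut (FreeGroup (Fin n))) : ℕ :=
  Finset.univ.sup fun i : Fin n => (FreeGroup.toWord (a (FreeGroup.of i))).length

/-- The bound of Q1: conjugate automorphisms `a`, `b` of `F_n` have a conjugator of norm at most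
`f (‖a‖, ‖b‖)`. -/
def AutBound (n : ℕ) (f : ℕ × ℕ → ℕ) : Prop :=
  ∀ a b : MulAut (FreeGroup (Fin n)), (∃ d : MulAut (FreeGroup (Fin n)), d⁻¹ * a * d = b) →
    ∃ c : MulAut (FreeGroup (Fin n)), c⁻¹ * a * c = b ∧ nrm c ≤ f (nrm a, nrm b)

/-- A bound in rank `N` gives a bound in every rank `n ≤ N - 2`, explicitly and computably. -/
theorem result (n N : ℕ) (h : n + 2 ≤ N) (f : ℕ × ℕ → ℕ) (hf : AutBound N f) :
    AutBound n (fun p => f (max p.1 p.2 + 5, max p.1 p.2 + 5)) ∧
      (Computable f → Computable (fun p : ℕ × ℕ => f (max p.1 p.2 + 5, max p.1 p.2 + 5))) :=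
  ⟨Pool.AutRed.aut_down h hf, Pool.AutRed.comp_max⟩

end Pool.Agent.Results.MP_8d5be4_al.RankReduction
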